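import Pool.Agent.E8helper3.HG.Cn
import Pool.Agent.E8helper3.HG.Pm

/-!
# Hodge classes on products of an arbitrary variety and of almost all fibres of a family

Let `X → S` be a family of smooth projective varieties over `ℚ` over an open subset `S` of the projective line, which may
have a degenerate fibre at `x = 0`, with unipotent local monodromy, and let `V` be (a direct summand of) the variation of
Hodge structure on its cohomology of one degree. The period matrix (rows: Betti, columns: de Rham) is
`P(x) = Ω exp(N log x) Z(x)`, where `N` is the residue of the Gauss-Manin connection, the entries of `Z` and of `Z⁻¹` are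
G-functions with rational coefficients, `Z(0) = 1`, and `Ω` is the period matrix of the limit mixed motive. We consider
abstract systems `T (x Z' + N Z) = Z A` over `ℚ[x]` of this kind (`Family`) and any invertible complex matrix `Ω`. Let
`monodromy` be the Lie algebra generated by the nilpotent matrices `A` such that all `exp(t A)` respect all polynomial
relations over `ℂ[x, log x]` between the entries of `P(x)`. For the families above it is, by Deligne and by the regularity
of the connection, the (semisimple) Lie algebra of the algebraic monodromy group; it is defined over `ℚ`, and its simple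
ideals `𝔰` are normalised by the operators `h` (`h = p - q` on `H^{p,q}`) of the Hodge structures of the fibres, and they are
centralised by `h` only if the part of the variation which belongs to `𝔰` is constant.

Let `Z` be ANY smooth projective variety, or any polarised rational Hodge structure `(hZ, QZ)` of rank `r` (sums of Hodge
structures of different weights are allowed), `α_1, …, α_k` algebraic integers, `V_j` the Hodge structure `(h_j, Q_j)` of the
fibre at `x = 1 / α_j`, on `ℚ^n`. We only use that its Hodge filtration is defined over a number field `K` of degree at most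
`D` with respect to the de Rham structure which is given by the columns of the matrix `P(1 / α_j)`; for families over `ℚ` the
Hodge filtration is defined over `ℚ(x)` and one can take `K = ℚ(α_1, …, α_k)`.

**Theorem.** For almost all tuples `α` of algebraic integers of degree at most `m` (all but a proportion `C H^(-c)` of
the tuples of algebraic integers of degree at most `m`, all of whose conjugates are bounded by `H`; `c > 0` and `C` depend only
on the family and on `m, k, D, r`) the following is true for all determinations of the logarithms of the `α_j`, for all fields `K`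
of degree at most `D` and for all polarised Hodge structures `(h_j, Q_j)` as above.

1. Every rational tensor `t` of any degree on `hZ ⊕ V_1 ⊕ ⋯ ⊕ V_k` which is annihilated by `hZ ⊕ h_1 ⊕ ⋯ ⊕ h_k`, that is every
   Hodge class on a product of copies of `Z` and of the fibres `X_1, …, X_k`, is annihilated by the operators `X` on the single
   factors `V_i`, for all `X` in all simple subalgebras `𝔰` of `monodromy` which are normalised but not centralised by `h_i`.
   So `Lie MT (hZ ⊕ V_1 ⊕ ⋯ ⊕ V_k)` contains the sum of `k` copies of `monodromy` (if no part of the variation is constant).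
2. If `monodromy` is simple and contains the symplectic or the orthogonal Lie algebra of `Q_j` for all `j`, then all Hodge
   tensors are linear combinations of products of Hodge tensors on copies of `Z` and of the polarisations `Q_j` (on pairs of
   copies of `V_j`); if `Q_j` is symmetric only the tensors are considered which contain `V_j` less than `n` times.

Consequences: by 1 all Hodge classes on the products `Z^a × ∏_j X_j^{r_j}` extend to flat families of Hodge classes on the
(finite coverings of the) products `Z^a × ∏_j X_{s_j}^{r_j}`, `(s_j) ∈ S^k`. By Deligne's principle B they are absolute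
Hodge classes if for one `s` all Hodge classes on the products `Z^a × ∏_j X_{s_j}^{r_j}` are, for example if `Z` and one smooth
fibre are dominated by products of curves or by abelian varieties. In the situation of 2 the Künneth components of
the Hodge classes on `Z^a × ∏_j X_j^{r_j}` on the `V_j` are generated by those on `Z^a` and by the polarisations, so they are absolute
(both parts of the problem) if those on the powers of `Z` are. For hypergeometric variations such results are known
(ArbitraryFactor, MP_4e1cf2_ag; HypergeometricAlgebraicGeneric, MP_0704bf_ag; CalabiYauHodgeLocus, MP_eeb1a4_ag).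

Proof. By the theorem of the starting file AlgebraicFibres (MP_12eca1_ag), for almost all tuples all relations of degree
at most `4` over `K` between the periods of the fibres and of `Z` (the coordinates of a basis of eigenvectors of `hZ` are the periods of `Z`) are
preserved by the unipotent elements `g` of the group of `P(x)` acting on one factor (`rel_count`). That a rational tensor is
annihilated by `h` means that it vanishes on the products of steps of the Hodge filtration of positive total level, and these are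
relations between the periods. So for Hodge tensors `t` of degree at most `4` also `g t` vanishes on these products, and
the same holds for the complex conjugates, so `t` is annihilated by `g h g⁻¹` (`transfer`). The trace form is nondegenerate on
the Lie algebra `𝔥` of the annihilator of all Hodge tensors, because of the polarisation (`trace_nondeg`), and the orthogonal
projection to `𝔥` is a Hodge tensor of degree `4`, whose stabiliser normalises `𝔥` (`exists_t4`). So all `g h g⁻¹` normalise `𝔥`,
and a Lie algebra argument (`lie_main`) shows that `𝔰` normalises `𝔥` and then that it is contained in `𝔥`. The second part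
follows by the first fundamental theorem (a starting file).
-/

set_option autoImplicit false

open PowerSeries
open scoped Matrix

namespace Pool.Agent.Results.MP_e2e4f5_ag.AlmostAllFibreTuplesH3

attribute [local instance 100] LieRing.ofAssociativeRing

/-- an integer polynomial as a power series with rational coefficients -/
noncomputable def toQ (P : Polynomial ℤ) : PowerSeries ℚ := ((P.map (Int.castRingHom ℚ) : Polynomial ℚ) : PowerSeries ℚ)

/-- The arithmetic conditions in the definition of a G-function, for a power series with rational coefficients: geometric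
growth of the coefficients and of their common denominators. -/
def GCond (g : ℚ⟦X⟧) : Prop := ∃ C : ℝ, (∀ m, |((coeff m g : ℚ) : ℝ)| ≤ C ^ (m + 1)) ∧
  ∀ m, ∃ d : ℕ, 0 < d ∧ (d : ℝ) ≤ C ^ (m + 1) ∧ ∀ j ≤ m, ∃ a : ℤ, (d : ℚ) * coeff j g = a

/-- `exp(N log x) Z(x)` solves a linear differential system over `ℚ[x]`, `Z(0) = 1`, and the entries of `Z` and of the
inverse matrix `W` are G-functions. -/
structure Family {n : ℕ} (T : Polynomial ℤ) (A : Matrix (Fin n) (Fin n) (Polynomial ℤ)) (N : Matrix (Fin n) (Fin n) ℤ)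
    (Z W : Matrix (Fin n) (Fin n) ℚ⟦X⟧) : Prop where
  /-- the denominator is not zero -/
  T_ne : T ≠ 0
  /-- the residue is nilpotent -/
  nil : N ^ n = 0
  /-- the differential system `T (x Z' + N Z) = Z A` -/
  ode : ∀ i j, toQ T * (X * PowerSeries.derivative ℚ (Z i j) + ∑ k, C (N i k : ℚ) * Z k j) = ∑ k, Z i k * toQ (A k j)
  /-- the initial condition -/
  init : ∀ i j, coeff 0 (Z i j) = if i = j then 1 else 0
  /-- `W` is the inverse of `Z` -/
  inv : W * Z = 1
  /-- the entries of `Z` are G-functions -/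
  gZ : ∀ i j, GCond (Z i j)
  /-- the entries of `W` are G-functions -/
  gW : ∀ i j, GCond (W i j)

section
variable {n : ℕ}

/-- the matrix `exp(s N)` -/
noncomputable def expN {R : Type} [CommRing R] [Algebra ℚ R] (N : Matrix (Fin n) (Fin n) ℤ) (s : R) :
    Matrix (Fin n) (Fin n) R :=
  IsNilpotent.exp (s • N.map (Int.castRingHom R))

/-- The matrix `P(x) = Ω exp(N log x) Z(x)` over the ring of the polynomials in `log x` with coefficients in `ℂ⟦x⟧`. -/
noncomputable def formal (Ω : Matrix (Fin n) (Fin n) ℂ) (N : Matrix (Fin n) (Fin n) ℤ) (Z : Matrix (Fin n) (Fin n) ℚ⟦X⟧) :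
    Matrix (Fin n) (Fin n) (Polynomial ℂ⟦X⟧) :=
  Ω.map (algebraMap ℂ (Polynomial ℂ⟦X⟧)) * expN N Polynomial.X *
    Z.map fun f => Polynomial.C (PowerSeries.map (algebraMap ℚ ℂ) f)

/-- The value of a polynomial `F` in `log x`, in `x` and in the entries of a matrix `Y`. -/
noncomputable def value (F : MvPolynomial (Option (Option (Fin n × Fin n))) ℂ) (Y : Matrix (Fin n) (Fin n) (Polynomial ℂ⟦X⟧)) :
    Polynomial ℂ⟦X⟧ :=
  MvPolynomial.aeval (fun o => o.elim Polynomial.X fun o => o.elim (Polynomial.C (X : ℂ⟦X⟧)) fun p => Y p.1 p.2) F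

/-- `g P(x)` satisfies all polynomial relations over `ℂ[x, log x]` which `P(x)` satisfies. -/
def Preserves (Ω : Matrix (Fin n) (Fin n) ℂ) (N : Matrix (Fin n) (Fin n) ℤ) (Z : Matrix (Fin n) (Fin n) ℚ⟦X⟧)
    (g : Matrix (Fin n) (Fin n) ℂ) : Prop :=
  ∀ F, value F (formal Ω N Z) = 0 → value F (g.map (algebraMap ℂ (Polynomial ℂ⟦X⟧)) * formal Ω N Z) = 0

/-- The Lie algebra (with the bracket `X Y - Y X`) generated by the nilpotent matrices `A` such that all `exp(t A)` preserve
the relations. -/
noncomputable def monodromy (Ω : Matrix (Fin n) (Fin n) ℂ) (N : Matrix (Fin n) (Fin n) ℤ) (Z : Matrix (Fin n) (Fin n) ℚ⟦X⟧) :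
    LieSubalgebra ℂ (Matrix (Fin n) (Fin n) ℂ) :=
  LieSubalgebra.lieSpan ℂ _ {A | IsNilpotent A ∧ ∀ t : ℂ, Preserves Ω N Z (IsNilpotent.exp (t • A))}

/-- The matrix `P(1 / α) = Ω exp(- N u) Z(1 / α)`, where `u` is a logarithm of `α`. -/
noncomputable def periods (Ω : Matrix (Fin n) (Fin n) ℂ) (N : Matrix (Fin n) (Fin n) ℤ) (Z : Matrix (Fin n) (Fin n) ℚ⟦X⟧)
    (α u : ℂ) : Matrix (Fin n) (Fin n) ℂ :=
  Ω * expN N (-u) * Matrix.of fun i j => ∑' a : ℕ, ((coeff a (Z i j) : ℚ) : ℂ) * (1 / α) ^ a

end

section hodge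

variable {E : Type} [Fintype E] [DecidableEq E]

/-- A polarised rational Hodge structure on `ℚ^E`, given by the operator `h` which is `p - q` on `H^{p,q}`, and by the
form `(v, w) ↦ vᵀ Q w`. It may be a sum of structures of different weights. -/
structure Polarised (h : Matrix E E ℂ) (Q : Matrix E E ℚ) : Prop where
  /-- the space is the sum of the eigenspaces for integers -/
  diag : ⨆ s : ℤ, Module.End.eigenspace (Matrix.mulVecLin h) (s : ℂ) = ⊤
  /-- the complex conjugate of `H^{p,q}` is `H^{q,p}` -/
  conj : h.map (starRingEnd ℂ) = -h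
  /-- the form is a morphism of Hodge structures -/
  skew : hᵀ * Q.map (Rat.castHom ℂ) + Q.map (Rat.castHom ℂ) * h = 0
  /-- positivity: `i^(p - q) Q(v, conj v) > 0` for `0 ≠ v ∈ H^{p,q}` -/
  pos : ∀ (s : ℤ) (v : E → ℂ), h *ᵥ v = (s : ℂ) • v → v ≠ 0 →
    0 < (Complex.I ^ s * (v ⬝ᵥ (Q.map (Rat.castHom ℂ) *ᵥ fun i => (starRingEnd ℂ) (v i)))).re ∧
      (Complex.I ^ s * (v ⬝ᵥ (Q.map (Rat.castHom ℂ) *ᵥ fun i => (starRingEnd ℂ) (v i)))).im = 0

/-- The matrix `X` acts as a derivation on the (complexification of the) space of the rational multilinear forms of degree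
`|S|` on `ℚ^E`; it annihilates the form `t` with the coefficients `t J = t (e_{J l} : l ∈ S)`. -/
def Annihilates {S : Type} [Fintype S] [DecidableEq S] (X : Matrix E E ℂ) (t : (S → E) → ℚ) : Prop :=
  ∀ J : S → E, ∑ l, ∑ b, (t (Function.update J l b) : ℂ) * X b (J l) = 0

/-- The Hodge filtration of `h` is defined over `K` with respect to the `K`-structure spanned by the columns of `P`: there is a
matrix `R` over `K` such that the steps of the filtration are spanned by the columns of `P R` of at least the given level. -/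
def DefinedOver (K : Subfield ℂ) (P h : Matrix E E ℂ) : Prop :=
  ∃ (R : Matrix E E ℂ) (e : E → ℤ), (∀ i j, R i j ∈ K) ∧ ∀ s : ℤ,
    Submodule.span ℂ {v | ∃ i, s ≤ e i ∧ v = (P * R).col i} =
      ⨆ r : {r : ℤ // s ≤ r}, Module.End.eigenspace (Matrix.mulVecLin h) ((r : ℤ) : ℂ)

end hodge

/-- the index set of `ℚ^r ⊕ (ℚ^n)^k` -/
abbrev Ind (r k n : ℕ) : Type := Fin r ⊕ (Fin n × Fin k)

section
variable {r k n : ℕ}

/-- the direct sum of the Hodge structures -/
def total (hZ : Matrix (Fin r) (Fin r) ℂ) (h : Fin k → Matrix (Fin n) (Fin n) ℂ) : Matrix (Ind r k n) (Ind r k n) ℂ :=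
  Matrix.fromBlocks hZ 0 0 (Matrix.blockDiagonal h)

/-- the operator which is `X` on the factor with the number `i` and zero on the other factors -/
def onFactor {R : Type} [Zero R] (r : ℕ) (i : Fin k) (X : Matrix (Fin n) (Fin n) R) : Matrix (Ind r k n) (Ind r k n) R :=
  Matrix.fromBlocks 0 0 0 (Matrix.blockDiagonal (Pi.single i X))

/-- a form on `ℚ^r`, extended by zero to the other factors -/
def extend {b : ℕ} (w : (Fin b → Fin r) → ℚ) (I : Fin b → Ind r k n) : ℚ :=
  ∑ x : Fin b → Fin r, if I = fun i => Sum.inl (x i) then w x else 0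

/-- The span of the products of forms on `ℚ^r` annihilated by `hZ` and of the forms `Q_j` on pairs of places, in any order. -/
def Products (r : ℕ) {k n : ℕ} (hZ : Matrix (Fin r) (Fin r) ℂ) (Q : Fin k → Matrix (Fin n) (Fin n) ℚ) (a : ℕ) :
    Submodule ℚ ((Fin a → Ind r k n) → ℚ) :=
  Submodule.span ℚ {t | ∃ (b m : ℕ) (σ : Fin b ⊕ (Fin m × Fin 2) ≃ Fin a) (w : (Fin b → Fin r) → ℚ) (d : Fin m → Fin k),
    Annihilates hZ w ∧ t = fun J => extend w (fun i => J (σ (Sum.inl i))) *
      ∏ l, onFactor r (d l) (Q (d l)) (J (σ (Sum.inr (l, 0)))) (J (σ (Sum.inr (l, 1))))}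

/-- the number of the places with indices in the factor with the number `j` -/
def places {a : ℕ} (J : Fin a → Ind r k n) (j : Fin k) : ℕ :=
  (Finset.univ.filter fun l => Sum.elim (fun _ => none) (fun p => some p.2) (J l) = some j).card

/-- The conclusion for the tuple `α` of algebraic integers. -/
def Good (D : ℕ) (Ω : Matrix (Fin n) (Fin n) ℂ) (N : Matrix (Fin n) (Fin n) ℤ) (Z : Matrix (Fin n) (Fin n) ℚ⟦X⟧)
    (hZ : Matrix (Fin r) (Fin r) ℂ) (α : Fin k → ℂ) : Prop :=
  -- the series converge
  (∀ j a b, Summable fun m : ℕ => ‖((coeff m (Z a b) : ℚ) : ℂ) * (1 / α j) ^ m‖) ∧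
  -- all determinations of the logarithms
  ∀ ℓ : Fin k → ℂ, (∀ j, Complex.exp (ℓ j) = α j) →
  -- all number fields of degree at most `D` and all polarised Hodge structures defined over them
  ∀ K : Subfield ℂ, FiniteDimensional ℚ K → Module.finrank ℚ K ≤ D →
  ∀ (h : Fin k → Matrix (Fin n) (Fin n) ℂ) (Q : Fin k → Matrix (Fin n) (Fin n) ℚ), (∀ j, Polarised (h j) (Q j)) →
  (∀ j, DefinedOver K (periods Ω N Z (α j) (ℓ j)) (h j)) →
  -- the Hodge tensors are annihilated by the simple subalgebras of the monodromy algebra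
  (∀ (i : Fin k) (L : LieSubalgebra ℂ (Matrix (Fin n) (Fin n) ℂ)), L ≤ monodromy Ω N Z → LieAlgebra.IsSimple ℂ L →
    (∀ X ∈ L, X * h i - h i * X ∈ L) → (∃ X ∈ L, X * h i - h i * X ≠ 0) →
    ∀ (a : ℕ) (t : (Fin a → Ind r k n) → ℚ), Annihilates (total hZ h) t → ∀ X ∈ L, Annihilates (onFactor r i X) t) ∧
  -- symplectic or orthogonal monodromy
  (LieAlgebra.IsSimple ℂ (monodromy Ω N Z) →
    (∀ j, h j ≠ 0 ∧ ((Q j)ᵀ = -Q j ∨ (Q j)ᵀ = Q j) ∧ ∀ X : Matrix (Fin n) (Fin n) ℂ,
      Xᵀ * (Q j).map (Rat.castHom ℂ) + (Q j).map (Rat.castHom ℂ) * X = 0 → X ∈ monodromy Ω N Z) →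
    ∀ (a : ℕ) (t : (Fin a → Ind r k n) → ℚ), Annihilates (total hZ h) t →
      (∀ J, t J ≠ 0 → ∀ j, (Q j)ᵀ = Q j → places J j < n) → t ∈ Products r hZ Q a)

end

/-- The algebraic integers of degree at most `m`, all of whose conjugates have absolute value at most `H`. -/
def integers (m H : ℕ) : Set ℂ :=
  {ξ | IsIntegral ℤ ξ ∧ (minpoly ℚ ξ).natDegree ≤ m ∧ ∀ z : ℂ, Polynomial.aeval z (minpoly ℚ ξ) = 0 → ‖z‖ ≤ H}

section proof

open Pool.Agent.E8helper3.AT Pool.Agent.E8helper3.HG Pool.Agent.Y123.GN

variable {n r k : ℕ}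

theorem hs_of {E : Type} [Fintype E] [DecidableEq E] {h : Matrix E E ℂ} {Q : Matrix E E ℚ} (hh : Polarised h Q) :
    IsHS h Q := ⟨hh.diag, hh.conj, hh.skew, hh.pos⟩

theorem ann_iff {E : Type} [Fintype E] [DecidableEq E] {a : ℕ} {X : Matrix E E ℂ} {t : (Fin a → E) → ℚ} :
    Annihilates X t ↔ Kil X t := (kil_iff X t).symm

/-- the conclusion for one tuple -/
theorem good_of {D : ℕ} {Ω : Matrix (Fin n) (Fin n) ℂ} {N : Matrix (Fin n) (Fin n) ℤ}
    {Z : Matrix (Fin n) (Fin n) ℚ⟦X⟧} (hc : ∀ g, Preserves Ω N Z g → Preserves Ω N Z (g.map (starRingEnd ℂ)))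
    {hZ : Matrix (Fin r) (Fin r) ℂ} {QZ : Matrix (Fin r) (Fin r) ℚ} (hhZ : Polarised hZ QZ) {lam : Fin r → ℤ}
    {U : Matrix (Fin r) (Fin r) ℂ} (hU : IsUnit U) (hUh : hZ * U = U * Matrix.diagonal fun i => (lam i : ℂ)) {α : Fin k → ℂ}
    (hg : GoodR 4 D Ω N Z U α) : Good D Ω N Z hZ α := by
  refine ⟨fun j a b => (hg.1 j a b).norm, fun ℓ hℓ K hK hKD h Q hh hdef => ?_⟩
  have hone : ∀ (i : Fin k) (L : LieSubalgebra ℂ (Matrix (Fin n) (Fin n) ℂ)), L ≤ monodromy Ω N Z → LieAlgebra.IsSimple ℂ L →
      (∀ X ∈ L, X * h i - h i * X ∈ L) → (∃ X ∈ L, X * h i - h i * X ≠ 0) →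
      ∀ (a : ℕ) (t : (Fin a → Ind r k n) → ℚ), Annihilates (total hZ h) t → ∀ X ∈ L, Annihilates (onFactor r i X) t := by
    intro i L hL hs hn hne a t ht X hX
    choose R e hR hA using hdef
    have hrl : ∀ (i : Fin k), ∀ g ∈ Ug (Gal Ω N Z), Rl K 4 (Pool.Agent.E8helper3.AT.tot U Ω N Z α ℓ)
        (((eM (Fin r) i g : (Matrix (IN (Fin r) k n) (IN (Fin r) k n) ℂ)ˣ) : Matrix (IN (Fin r) k n) (IN (Fin r) k n) ℂ) *
          Pool.Agent.E8helper3.AT.tot U Ω N Z α ℓ) := fun i g hg' =>
      hg.2.2 ℓ hℓ K hK hKD _ (eM_Ug ⟨g, hg', rfl⟩)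
    have h1 := tuple_main (hs_of hhZ) hU hUh hR (e := e) (fun j => hs_of (hh j)) (fun j => hA j) hrl hc i hL hs hn hne hX
    exact ann_iff.2 (h1 a t (ann_iff.1 ht))
  refine ⟨hone, fun hs hbig a t ht hcount => ?_⟩
  have hmem : ∀ j, h j ∈ monodromy Ω N Z := fun j => (hbig j).2.2 _ (hh j).skew
  have hne : ∀ j, ∃ X ∈ monodromy Ω N Z, X * h j - h j * X ≠ 0 := by
    intro j
    by_contra hcon
    push Not at hcon
    apply (hbig j).1
    -- the centre of a simple Lie algebra
    let x : monodromy Ω N Z := ⟨h j, hmem j⟩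
    have h1 : x ∈ LieAlgebra.center ℂ (monodromy Ω N Z) := by
      rw [LieModule.mem_maxTrivSubmodule]
      intro y
      refine Subtype.ext ?_
      exact hcon y.1 y.2
    have h2 : LieAlgebra.center ℂ (monodromy Ω N Z) = ⊥ := by
      refine (hs.eq_bot_or_eq_top _).resolve_right fun htop => hs.non_abelian ?_
      exact (LieAlgebra.isLieAbelian_iff_center_eq_top ℂ _).2 htop
    rw [h2, LieSubmodule.mem_bot] at h1
    exact congrArg Subtype.val h1
  have hX : ∀ j, ∀ X ∈ monodromy Ω N Z, Annihilates (onFactor r j X) t := by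
    intro j X hX
    refine hone j _ (le_refl _) hs (fun Y hY => ?_) (hne j) a t ht X hX
    exact (monodromy Ω N Z).lie_mem hY (hmem j)
  -- the operator of `Z`
  have htZ : Annihilates (Matrix.fromBlocks hZ 0 0 0 : Matrix (Ind r k n) (Ind r k n) ℂ) t := by
    rw [ann_iff]
    have h1 : (Matrix.fromBlocks hZ 0 0 0 : Matrix (Ind r k n) (Ind r k n) ℂ) = total hZ h + (-1 : ℂ) • ∑ j, iX r j (h j) := by
      have h2 : ∑ j, iX r j (h j) = (Matrix.fromBlocks 0 0 0 (Matrix.blockDiagonal h) : Matrix (Ind r k n) (Ind r k n) ℂ) := by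
        have h3 : h = ∑ j, (Pi.single j (h j) : Fin k → Matrix (Fin n) (Fin n) ℂ) := by
          funext i
          rw [Finset.sum_apply, Finset.sum_eq_single i]
          · rw [Pi.single_eq_same]
          · intro j _ hj
            rw [Pi.single_eq_of_ne (Ne.symm hj)]
          · intro hh'
            exact absurd (Finset.mem_univ _) hh'
        ext (x | ⟨x, i⟩) (y | ⟨y, i'⟩)
        · rw [Matrix.sum_apply]
          exact Finset.sum_eq_zero fun j _ => rfl
        · rw [Matrix.sum_apply]
          exact Finset.sum_eq_zero fun j _ => rfl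
        · rw [Matrix.sum_apply]
          exact Finset.sum_eq_zero fun j _ => rfl
        · rw [Matrix.sum_apply]
          show ∑ j, Matrix.blockDiagonal (Pi.single j (h j) : Fin k → Matrix (Fin n) (Fin n) ℂ) (x, i) (y, i') =
            Matrix.blockDiagonal h (x, i) (y, i')
          by_cases hi : i = i'
          · subst hi
            rw [Matrix.blockDiagonal_apply_eq]
            conv_rhs => rw [h3]
            rw [Finset.sum_apply, Matrix.sum_apply]
            refine Finset.sum_congr rfl fun j _ => ?_
            rw [Matrix.blockDiagonal_apply_eq]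
          · rw [Matrix.blockDiagonal_apply_ne _ _ _ hi]
            exact Finset.sum_eq_zero fun j _ => Matrix.blockDiagonal_apply_ne _ _ _ hi
      rw [h2]
      unfold total
      rw [Matrix.fromBlocks_smul, Matrix.fromBlocks_add]
      simp only [smul_zero, add_zero, neg_smul, one_smul, add_neg_cancel]
    intro v
    have h3 : dv (total hZ h) t v = 0 := (ann_iff.1 ht) v
    have h4 : ∀ S : Finset (Fin k), dv (∑ j ∈ S, iX r j (h j)) t v = 0 := by
      intro S
      induction S using Finset.induction_on with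
      | empty =>
        rw [Finset.sum_empty]
        have h5 := dv_smul 0 (0 : Matrix (Ind r k n) (Ind r k n) ℂ) t v
        rw [zero_smul, zero_mul] at h5
        exact h5
      | insert j S hj ih =>
        rw [Finset.sum_insert hj, dv_add, ih, add_zero]
        exact (ann_iff.1 (hX j (h j) (hmem j))) v
    show dv (Matrix.fromBlocks hZ 0 0 0 : Matrix (Ind r k n) (Ind r k n) ℂ) t v = 0
    rw [h1, dv_add, dv_smul, h3, h4, mul_zero, add_zero]
  have hQu : ∀ j, IsUnit (Q j) := by
    intro j
    have h1 := Q_unit (hs_of (hh j))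
    rw [Matrix.isUnit_iff_isUnit_det, isUnit_iff_ne_zero] at h1 ⊢
    intro h2
    apply h1
    have h3 : (rc (Q j)).det = ((Q j).det : ℂ) := by
      have h4 := (Rat.castHom ℂ).map_det (Q j)
      exact h4.symm
    rw [h3, h2, Rat.cast_zero]
  classical
  refine prod_main (s := fun j => if (Q j)ᵀ = Q j then 1 else -1) (fun j => ?_) (fun j x y => ?_) hQu htZ
    (fun j X hX' => hX j X ((hbig j).2.2 X hX')) fun J hJ j hj => ?_
  · by_cases h1 : (Q j)ᵀ = Q j
    · exact Or.inl (if_pos h1)
    · exact Or.inr (if_neg h1)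
  · by_cases h1 : (Q j)ᵀ = Q j
    · simp only [if_pos h1, Int.cast_one, one_mul]
      exact congrFun (congrFun h1.symm x) y
    · have h2 := (hbig j).2.1.resolve_right h1
      simp only [if_neg h1, Int.cast_neg, Int.cast_one]
      have h3 := congrFun (congrFun h2 y) x
      rw [Matrix.transpose_apply, Matrix.neg_apply] at h3
      rw [h3]
      ring
  · by_cases h1 : (Q j)ᵀ = Q j
    · exact hcount J hJ j h1
    · rw [if_neg h1] at hj
      exact absurd hj (by norm_num)

end proof

/-- **The theorem.** -/
theorem result {n : ℕ} {T : Polynomial ℤ} {A : Matrix (Fin n) (Fin n) (Polynomial ℤ)} {N : Matrix (Fin n) (Fin n) ℤ}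
    {Z W : Matrix (Fin n) (Fin n) ℚ⟦X⟧} (hF : Family T A N Z W) (m : ℕ) (hm : 1 ≤ m) (k D r : ℕ) :
    ∃ c : ℝ, 0 < c ∧ ∃ C : ℝ, ∀ Ω : Matrix (Fin n) (Fin n) ℂ, IsUnit Ω →
      (∀ g, Preserves Ω N Z g → Preserves Ω N Z (g.map (starRingEnd ℂ))) →
      ∀ (hZ : Matrix (Fin r) (Fin r) ℂ) (QZ : Matrix (Fin r) (Fin r) ℚ), Polarised hZ QZ →
      ∀ H : ℕ, 1 ≤ H → (integers m H).Finite ∧
      ({α : Fin k → ℂ | (∀ j, α j ∈ integers m H) ∧ ¬ Good D Ω N Z hZ α}.ncard : ℝ) ≤
        C * (H : ℝ) ^ (-c) * ((integers m H).ncard : ℝ) ^ k := by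
  classical
  have hnr := Pool.Agent.Y916.Af.nrh_of_gfs (Pool.Agent.E8helper3.AT.gfs T A N Z W hF.T_ne hF.nil hF.ode hF.init hF.inv
    hF.gZ hF.gW)
  have hGZ : ∀ i j, Pool.Agent.E8helper3.AT.Gro (Z i j) := fun i j => Pool.Agent.E8helper3.AT.GC.gro (hF.gZ i j)
  have hGW : ∀ i j, Pool.Agent.E8helper3.AT.Gro (W i j) := fun i j => Pool.Agent.E8helper3.AT.GC.gro (hF.gW i j)
  obtain ⟨c, hc, C, hC, h⟩ := Pool.Agent.E8helper3.HG.rel_count hF.nil hF.inv hGZ hGW hnr m hm k 4 D r
  refine ⟨c, hc, C, fun Ω hΩ hconj hZ QZ hhZ H hH => ?_⟩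
  obtain ⟨lam, U, hU, hUh⟩ := Pool.Agent.E8helper3.HG.exists_eigen hhZ.diag
  obtain ⟨hfin, hle⟩ := h Ω hΩ U H hH
  refine ⟨hfin, le_trans ?_ hle⟩
  have hbig : {α : Fin k → ℂ | ∀ i, Pool.Agent.Y916.Sl.SInt m H (α i)}.Finite := by
    have h1 := Set.Finite.pi' (fun _ : Fin k => hfin)
    exact h1
  refine Nat.cast_le.2 (Set.ncard_le_ncard ?_ (hbig.subset fun α h => h.1))
  rintro α ⟨h1, h2⟩
  refine ⟨h1, fun h3 => h2 ?_⟩
  exact good_of hconj hhZ hU hUh h3

end Pool.Agent.Results.MP_e2e4f5_ag.AlmostAllFibreTuplesH3
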