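import Pool.Agent.E8helper24.HP.AbsHalf

/-!
# 51 percent of the Hodge classes on one variety `X^n × Z × Z`, `n` explicit, decide the absolute
# Hodge conjecture for all powers of `X`

Let `T` be a Hodge theory (rational cohomology with polarised Hodge structures of the smooth projective
varieties of a class closed under products) and `D` any family of conjugate theories with comparison
isomorphisms, as in the starting file `OneThirdLaw` (for the automorphisms of `ℂ`, the de Rham
comparison for Q1, the `ℓ`-adic ones for Q2, all of them for Deligne's notion). Let `X` be any variety
of the class with a polarisation, `d` its dimension, `b` the dimension of its whole cohomology,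

  `M = b! * max 1 d ^ (b - 1)` (or `M = 2` if `X` has no part of type IV),
  `m ≥ b³ M² log (2 b M + 1)`,  `C = (16 m b ^ (4 m + 2)) ^ (b² + 2)`.

**Theorem.** Either all Hodge classes on all powers of `X` are absolutely Hodge, or for **all** `n` and
**all** varieties `Z`

  `absDim (X^(n+1) × Z × Z) ≤ (1 / 2 + C log (n + 2) / (n + 1)) * hodgeDim (X^(n+1) × Z × Z)`,

where `absDim` and `hodgeDim` are the numbers of linearly independent absolutely Hodge and Hodge classes.
The constant `C` depends only on `b` and `d`.

So the absolute Hodge conjecture (each of its versions) is true for all powers of `X` if for **one**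
exponent `n` with `C log (n + 2) / (n + 1) < 1 / 100` and **one** variety `Z` (for instance such that
`X^(n+1) × Z × Z` has many algebraic or motivated classes) at least 51 percent of the Hodge classes on
`X^(n+1) × Z × Z` are absolutely Hodge.

The proof uses the theorem for one power (`OnePowerH1`): if some Hodge class on some power of `X` is not
absolutely Hodge, there is one on `X^(2 m)`. The Hodge classes on `X^(2 m)`, as a module over the
absolutely Hodge correspondences, then have at least two composition factors (counted with their
asymptotic sizes), whose sizes on `X^(n+1) × Z × Z` are estimated for each single `n` and `Z`: either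
the number of the absolutely Hodge classes is smaller by a factor `1 / n` than the number given by the
permutations of the factors, or the log-convexity of the numbers of classes on the products
`X^(2 l) × Z × Z` determines the sizes up to a factor `1 - O(log n / n)`, with an explicit constant.
-/

open CategoryTheory AlgebraicGeometry

universe u

namespace Pool.Agent.Results.MP_e2e4f5_ag.FiftyOnePercentH24

open Pool.Agent.H914
open Pool.Agent.Y121.AHS (HodgeTheory Full.Conjugates)
open Pool.Agent.Y133.Half (pw)
open Pool.Agent.E8helper1.TPH
open Pool.Agent.E8helper24.HP (AtMostHalf constant)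

variable {k : Type u} [Field k] {𝒱 : VarClass k} {ops : CycleOps 𝒱}

/-- **51 percent of the Hodge classes on one variety `X^(n+1) × Z × Z` decide the absolute Hodge
conjecture for all powers of `X`**: `pw X n` is the product of `n + 1` copies of `X`. -/
theorem result {T : HodgeTheory ops} (D : Full.Conjugates T) (C : Conj T) (X : 𝒱.Obj)
    (hX : 0 < hdim T X) (P : X.Cycles) (hP : C.Polarizes X P) (M : ℕ)
    (hM : M = exponent (hdim T X) X.dim ∨ NoTypeFour T X ∧ M = 2) (m : ℕ)
    (hm : (hdim T X : ℝ) ^ 3 * (M : ℝ) ^ 2 * Real.log (2 * hdim T X * M + 1) ≤ m) :
    (∀ n, AbsConj D (pw X n)) ∨ ∀ Z : 𝒱.Obj,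
      AtMostHalf (fun n => absDim D ((pw X n).prod (Z.prod Z)))
        (fun n => hodgeDim T ((pw X n).prod (Z.prod Z))) (constant (hdim T X) m) :=
  Pool.Agent.E8helper24.HP.AbsH.abs_half C hX hP M hM m hm

end Pool.Agent.Results.MP_e2e4f5_ag.FiftyOnePercentH24
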