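import Pool.Agent.E8helper53.AH.Fin2

/-!
# Absolutely Hodge classes on powers of very general hyperplane sections

Let `T` be a Hodge theory on a class of smooth projective varieties (in the intended use
`X ↦ H(X, ℚ)` for smooth projective complex varieties), `T'` a conjugate theory (`X ↦ H(X^σ, ℚ)` for
an automorphism `σ` of `ℂ`), and `C` a family of comparison isomorphisms between them, given by
de Rham cohomology (with coefficients in `ℂ`) and by `ℓ`-adic cohomology (with coefficients in
`ℚ_ℓ`). `AbsHodge C V` is the absolute Hodge conjecture for `V` and `σ`: for every Hodge class on
`V` there is one Hodge class on `V^σ` which corresponds to it for all comparison isomorphisms in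
the family. (For the de Rham part of the conjecture one takes only the de Rham comparison, for the
`ℓ`-adic part only the one for `ℓ`.)

Let `X` be any smooth projective variety, `i : Y ⟶ X` a smooth hyperplane section, and `Z` any
variety. Let `Γ` act on the cohomology of `X`, `Y`, `Z` and of the products
`X ^ a × Z` and `Y ^ a × Z` (`a = n + 1`). The main example: `Y` is a very general member
of a Lefschetz pencil of hyperplane sections of `X`, `Γ` is the fundamental group of the base of the
pencil, it acts by monodromy on `H(Y)` and trivially on `H(X)`, `H(Z)`, and `χ = 1`. The assumptions
of the theorem are then satisfied: the theorems of Lefschetz, the Picard-Lefschetz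
formula for one of the local monodromy operators and the irreducibility of the vanishing
cohomology `V = ker (i_* : H(Y) → H(X))` under subgroups of finite index (if `V` is not zero, always
in odd dimension, and in even dimension if the monodromy group is infinite, by Deligne and
Kazhdan-Margulis), and `hB`: all Hodge classes on `Y ^ a × Z` are fixed by a subgroup of finite
index (since `Y` is very general, and the Hodge classes are polarised). If `dim Y` is even,
`a < dim V` is assumed. No assumption is made on the cohomology of `X` and `Z`. The theorem:

1. every Hodge class on `Y ^ a × Z` is in the algebra generated by the classes of the diagonals of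
   pairs of factors `Y` and the restrictions of the monodromy invariant Hodge classes on
   `X ^ a × Z`;
2. the absolute Hodge conjecture for `Y ^ a × Z` is true if and only if the
   restrictions to `Y ^ a × Z` of these Hodge classes on `X ^ a × Z` are absolutely Hodge;
3. the absolute Hodge conjecture for `X ^ a × Z` implies the absolute Hodge conjecture
   for `Y ^ a × Z`.

By Deligne's theorem 3. applies if `X` and `Z` are abelian varieties (or if their motives are
in the category generated by abelian varieties, for example products of abelian varieties, K3
surfaces and cubic fourfolds): for the very general hyperplane sections `Y` of `X`, and all their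
powers (`a < dim V` if `dim Y` is even), every Hodge class on `Y ^ a × Z` is absolutely Hodge. As
`Z` is arbitrary the theorem can be iterated (products of hyperplane sections of different
varieties, complete intersections).

The proof. For every set `F` of factors `Y` the contraction with vanishing classes and a natural
section `H(Y) → H(X)` of the restriction at the other factors give an equivariant multilinear map
`V ^ F → H(X ^ a × Z)`; since the Lie algebra generated by the Picard-Lefschetz operators is the
Lie algebra of the form on `V`, it is a combination of products of the form on pairs of variables
with coefficients in `H(X ^ a × Z)`. The Hodge structure on the cohomology of all varieties is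
described by natural `ℚ`-linear derivations (the operators `p - q` followed by `ℚ`-linear
forms on `ℂ`), the Hodge classes are the classes killed by them. The natural section commutes with
them and they are skew for the form on `V`; so the coefficients are killed by them, that is, they are
Hodge classes on `X ^ a × Z`.
-/

universe u w

namespace Pool.Agent.Results.MP_e2e4f5_ag.HyperplaneSectionsH53

open Pool.Agent.H914 Pool.Agent.TH125.Gal Pool.Agent.E8helper53.LP
  Pool.Agent.E8helper53.AH

/-- **The absolute Hodge conjecture for the powers of very general hyperplane sections.**
`pwp ops X n Z` is the product of `n + 1` copies of `X` and of `Z`. -/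
theorem result {k : Type u} [Field k] {𝒱 : VarClass k} {ops : CycleOps 𝒱}
    {T T' : HodgeTheory ops} {J : Type} (C : J → Comparison T T') {Γ : Type w} [Group Γ]
    (χ : Character T.W Γ) {X Y Z : 𝒱.Obj} (i : Y ⟶ X) (ρ : ActOn T.W Γ X) (ρ' : ActOn T.W Γ Y)
    (τ : ActOn T.W Γ Z) (n : ℕ) (h : PencilMember χ i ρ ρ' τ (n + 1))
    (υ : ActOn T.W Γ (pwp ops X n Z)) (hυ : IsProdAct n ρ τ υ)
    (υ' : ActOn T.W Γ (pwp ops Y n Z)) (hυ' : IsProdAct n ρ' τ υ')
    (hB : ∀ j, hodge T (pwp ops Y n Z) j ⊆ invHodge T χ υ' j) :
    HodgeGenerated T χ i n υ ∧
    (AbsHodge C (pwp ops Y n Z) ↔ RestrictionsAbs C χ i n υ) ∧
    (AbsHodge C (pwp ops X n Z) → AbsHodge C (pwp ops Y n Z)) :=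
  main h hυ hυ' hB

end Pool.Agent.Results.MP_e2e4f5_ag.HyperplaneSectionsH53
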