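import Pool.Agent.E8helper1.TPH.Conv

/-!
# The absolute Hodge conjecture for one power of `X` implies it for all powers, with an explicit
# bound which depends only on the Betti numbers and the dimension

Let `T` be a Hodge theory on a class of smooth projective varieties (`X ↦ H(X, ℚ)` for complex
varieties) and `D` a family of conjugate theories with comparison isomorphisms (`H(X^σ, ℚ)` for the
automorphisms `σ` of `ℂ`, with the comparison isomorphisms given by de Rham cohomology and by
`ℓ`-adic cohomology, or only some of them), as in the starting file `OneThirdLaw`. A Hodge class is
absolutely Hodge if, for every conjugate theory, it corresponds to one Hodge class with respect to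
all comparison isomorphisms; with one comparison isomorphism for each `σ` this is Q1 (de Rham) or Q2
(`ℓ`-adic), with all of them it is Deligne's notion. `AbsConj D Z`: all Hodge classes on `Z` are
absolutely Hodge.

Let `X` be any variety of the class, with a polarisation (a divisor class which satisfies hard
Lefschetz and the Hodge-Riemann relations), `b` the dimension of its whole cohomology, `d` its
dimension, and

  `M = b! * max 1 d ^ (b - 1)`;

if `X` has no part of type IV, `M = 2` is sufficient. If the conjecture is true for **one** power
`X ^ (2 m)` with `m ≥ M`, then the number of linearly independent Hodge classes on `X ^ n`, divided by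
the number of linearly independent absolutely Hodge classes, is at most `(2 b M) ^ (2 b²)` for all
even `n` and tends to a natural number `N` with the same bound, which is `1` if and only if the
conjecture is true for all powers of `X`; and `N = 1` if `m ≥ b³ M² log (2 b M + 1)`. Hence the
conjecture is true for all powers of `X` if it is true for one power `X ^ (2 m)` with
`m ≥ b³ M² log (2 b M + 1)`.

The proof: the absolutely Hodge classes on the powers of `X`, with complex coefficients, are stable
under the adjoints for a positive definite hermitian form (Hodge-Riemann relations and the Lefschetz
star operator, which is a Hodge class on `X × X`), so they are the invariants of a closed subgroup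
`G` of the unitary group `U(b)` (Schur-Weyl duality and Stone-Weierstrass). It contains the closed
subgroup `G'` whose invariants are the Hodge classes. The Lie algebras of `G` and `G'` have the same
derived algebra, since the two groups have the same invariants of degree four (no part of type IV) or
`2 M`; the central part of `G'` is generated by the projections of the conjugates of the cocharacter
`p - q`, whose weights are bounded by `d`, and by Cramer's rule it is determined by the invariants of
degree `2 M`. Then a packing argument in `U(b)` bounds the index, and the comparison of the integrals
of `|tr g| ^ (2 m)` over the two groups shows that they are equal if they have the same invariants in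
one power with `m ≥ b³ M² log (2 b M + 1)`.
-/

open CategoryTheory AlgebraicGeometry

universe u

namespace Pool.Agent.Results.MP_e2e4f5_ag.OnePowerH1

open Pool.Agent.H914
open Pool.Agent.Y121.AHS (HodgeTheory Full.Conjugates)
open Pool.Agent.Y133.Half (pw)
open Pool.Agent.E8helper1.TPH

variable {k : Type u} [Field k] {𝒱 : VarClass k} {ops : CycleOps 𝒱}

/-- **The absolute Hodge conjecture for one power implies it for all powers**: `pw X n` is the product
of `n + 1` copies of `X`. -/
theorem result {T : HodgeTheory ops} (D : Full.Conjugates T) (C : Conj T) (X : 𝒱.Obj)
    (hX : 0 < hdim T X) (P : X.Cycles) (hP : C.Polarizes X P) (M : ℕ)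
    (hM : M = exponent (hdim T X) X.dim ∨ NoTypeFour T X ∧ M = 2) (m : ℕ) (hm : M ≤ m)
    (h : AbsConj D (pw X (2 * m - 1))) :
    ∃ N : ℕ, 1 ≤ N ∧ N ≤ bound (hdim T X) M ∧
      Quot (fun n => hodgeDim T (pw X n)) (fun n => absDim D (pw X n)) (bound (hdim T X) M) N ∧
      (N = 1 ↔ ∀ n, AbsConj D (pw X n)) ∧
      ((hdim T X : ℝ) ^ 3 * (M : ℝ) ^ 2 * Real.log (2 * hdim T X * M + 1) ≤ m → N = 1) :=
  abs_law C hX hP M hM m hm h

end Pool.Agent.Results.MP_e2e4f5_ag.OnePowerH1
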